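import Pool.Agent.Q206.Intro.Main

set_option autoImplicit false

/-!
# An introenumerable set which is not finitely decomposable (MP_7321fb_lc, Q1)

The definitions are in `Pool/Agent/Q206/Intro/Defs.lean`: `D u` is the finite set with canonical
index `u`, `app Θ X` is `Θ(X)`, `UIE A B` is `A ≤^{ui}_e B`, and `TRed` is Turing reducibility
(Mathlib's `TuringReducible` for characteristic functions).

The set is `A_Z = {(j, (Z with Z(j) erased) restricted to m) : j < m}` for a sufficiently Cohen
generic `Z`; it is also introreducible.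
-/

namespace Pool.Agent.Results.MP_7321fb_lc.NotFinitelyDecomposable

open Q206.Intro

theorem result : ∃ A : Set ℕ, Introenumerable A ∧ Introreducible A ∧
    ¬ ∃ (n : ℕ) (B : Fin (n + 1) → Set ℕ), A = ⋃ i, B i ∧ ∀ i, UIE A (B i) := by
  obtain ⟨A, h1, h2, -, h3⟩ := exists_set
  exact ⟨A, h2, h1, fun ⟨n, B, hB, h4⟩ => h3 (n + 1) B hB h4⟩

end Pool.Agent.Results.MP_7321fb_lc.NotFinitelyDecomposable
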